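import Pool.Agent.SulK.Ratio

/-!
# MP_109285_co: Sullivan vertices up to a polylogarithmic factor in the ratio of the in-degrees

If all nonzero in-degrees of an oriented graph are in `[d, K d]`, then some vertex `v` has
`|N-(v)| ≤ (6 (1 + log K))^273 |N2+(v)|`.  (For `d = 1` and `K = n` this covers every oriented graph on
`n` vertices.)
-/

set_option autoImplicit false

namespace Pool.Agent.Results.MP_109285_co.DegreeRatio

theorem result (n : ℕ) (adj : Fin n → Fin n → Prop) (hn : 0 < n)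
    (has : ∀ x y, adj x y → ¬ adj y x) (d K : ℝ) (hd : 0 < d) (hK : 1 ≤ K)
    (hdeg : ∀ v, {u | adj u v}.ncard = 0 ∨
      (d ≤ ({u | adj u v}.ncard : ℝ) ∧ ({u | adj u v}.ncard : ℝ) ≤ K * d)) :
    ∃ v, ({u | adj u v}.ncard : ℝ) ≤ (6 * (1 + Real.log K)) ^ 273 *
      ({w | w ≠ v ∧ ¬ adj v w ∧ ∃ u, adj v u ∧ adj u w}.ncard : ℝ) := by
  have : Nonempty (Fin n) := ⟨⟨0, hn⟩⟩
  by_cases h0 : ∃ v, ({u | adj u v} : Set (Fin n)).ncard = 0
  · obtain ⟨v, hv⟩ := h0
    refine ⟨v, ?_⟩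
    rw [hv, Nat.cast_zero]
    have hlog := Real.log_nonneg hK
    exact mul_nonneg (pow_nonneg (by linarith) _) (Nat.cast_nonneg _)
  · push Not at h0
    exact Pool.Agent.SulK.ratio_main adj has d K hd hK
      (fun v => ((hdeg v).resolve_left (h0 v)).1) (fun v => ((hdeg v).resolve_left (h0 v)).2)

end Pool.Agent.Results.MP_109285_co.DegreeRatio
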