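import Pool.Agent.Sully15.Joint

/-!
# MP_109285_co: every orientation of a random graph has a Sullivan vertex
-/

set_option autoImplicit false

namespace Pool.Agent.Results.MP_109285_co.EveryOrientation

open Pool.Agent.GRig

/-- If `p > 0`, `p^21 n ≥ 10^97` and `(1 - p) n ≥ 10^10 log n`, then with probability at least
`1 - 1/n` every orientation of `G(n,p)` has a vertex `v` with
`|N2+(v)| ≥ |N-(v)| + p^2 (1 - p) n / 2^22`. -/
theorem result (n : ℕ) (p : ℝ) (hp0 : 0 < p) (h1 : 10 ^ 97 ≤ p ^ 21 * n)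
    (h2 : 10 ^ 10 * Real.log n ≤ (1 - p) * n) :
    1 - 1 / (n : ℝ) ≤
      prob n p (fun G => ∀ adj : Fin n → Fin n → Prop,
        (∀ x y, adj x y → ¬ adj y x) → (∀ x y, (adj x y ∨ adj y x) ↔ G.Adj x y) →
        ∃ v : Fin n,
          ({u : Fin n | adj u v}.ncard : ℝ) + p ^ 2 * (1 - p) * n / 2 ^ 22 ≤
            ({w : Fin n | w ≠ v ∧ ¬ adj v w ∧ ∃ u : Fin n, adj v u ∧ adj u w}.ncard : ℝ)) :=
  Pool.Agent.Sully15.joint n p hp0 h1 h2

end Pool.Agent.Results.MP_109285_co.EveryOrientation
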