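import Mathlib

/-!
# MP_109285_co: an exponential inequality for second out-neighbourhoods

For every finite oriented graph and all nonnegative vertex weights `w` and `h` (`h` not identically
zero) some vertex `v` satisfies
`w(v) * ∑_{u → v} h(u) < h(v) * ∏_{u ∈ N2+(v)} (1 + w(u))`.
-/

set_option autoImplicit false

namespace Pool.Agent.Results.MP_109285_co.ExpInequality

open Finset

/-- In an oriented graph at most one vertex of a set dominates the others, so
`∑_{x ∈ B} w(x) ∏_{u ∈ B, x → u} (1 + w(u)) ≤ ∏_{x ∈ B} (1 + w(x)) - 1`. -/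
theorem king_sum {V : Type*} [DecidableEq V] (adj : V → V → Prop) [DecidableRel adj]
    (has : ∀ x y, adj x y → ¬ adj y x) (w : V → ℝ) (hw : ∀ v, 0 ≤ w v) (B : Finset V) :
    ∑ x ∈ B, w x * ∏ u ∈ B with adj x u, (1 + w u) ≤ (∏ x ∈ B, (1 + w x)) - 1 := by
  classical
  have hloop : ∀ x, ¬ adj x x := fun x hx => has x x hx hx
  -- expand the products
  have h1 : ∀ x ∈ B, w x * ∏ u ∈ B with adj x u, (1 + w u) =
      ∑ R ∈ B.powerset with (x ∈ R ∧ ∀ u ∈ R, u ≠ x → adj x u), ∏ u ∈ R, w u := by
    intro x hx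
    rw [Finset.prod_one_add, Finset.mul_sum]
    refine Finset.sum_bij' (fun T _ => insert x T) (fun R _ => R.erase x) ?_ ?_ ?_ ?_ ?_
    · intro T hT
      rw [Finset.mem_powerset] at hT
      rw [Finset.mem_filter, Finset.mem_powerset]
      refine ⟨?_, Finset.mem_insert_self _ _, ?_⟩
      · intro u hu
        rcases Finset.mem_insert.1 hu with rfl | hu
        · exact hx
        · exact (Finset.mem_filter.1 (hT hu)).1
      · intro u hu hux
        rcases Finset.mem_insert.1 hu with rfl | hu
        · exact absurd rfl hux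
        · exact (Finset.mem_filter.1 (hT hu)).2
    · intro R hR
      rw [Finset.mem_filter, Finset.mem_powerset] at hR
      rw [Finset.mem_powerset]
      intro u hu
      rw [Finset.mem_erase] at hu
      rw [Finset.mem_filter]
      exact ⟨hR.1 hu.2, hR.2.2 u hu.2 hu.1⟩
    · intro T hT
      rw [Finset.mem_powerset] at hT
      apply Finset.erase_insert
      intro hxT
      exact hloop x (Finset.mem_filter.1 (hT hxT)).2
    · intro R hR
      rw [Finset.mem_filter] at hR
      exact Finset.insert_erase hR.2.1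
    · intro T hT
      rw [Finset.mem_powerset] at hT
      rw [Finset.prod_insert]
      intro hxT
      exact hloop x (Finset.mem_filter.1 (hT hxT)).2
  rw [Finset.sum_congr rfl h1]
  have h2 : (∏ x ∈ B, (1 + w x)) - 1 = ∑ R ∈ B.powerset with R.Nonempty, ∏ u ∈ R, w u := by
    rw [Finset.prod_one_add]
    rw [← Finset.sum_filter_add_sum_filter_not B.powerset (fun R => R.Nonempty)]
    have : (B.powerset.filter (fun R => ¬ R.Nonempty)) = {∅} := by
      ext R
      simp only [Finset.mem_filter, Finset.mem_powerset, Finset.not_nonempty_iff_eq_empty,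
        Finset.mem_singleton]
      constructor
      · exact fun h => h.2
      · rintro rfl
        exact ⟨Finset.empty_subset _, rfl⟩
    rw [this]
    simp
  rw [h2]
  have h3 : ∑ x ∈ B, ∑ R ∈ B.powerset with (x ∈ R ∧ ∀ u ∈ R, u ≠ x → adj x u), ∏ u ∈ R, w u =
      ∑ R ∈ B.powerset, ∑ x ∈ B with (x ∈ R ∧ ∀ u ∈ R, u ≠ x → adj x u), ∏ u ∈ R, w u := by
    simp only [Finset.sum_filter]
    exact Finset.sum_comm
  rw [h3, Finset.sum_filter]
  refine Finset.sum_le_sum fun R _ => ?_
  rw [Finset.sum_const, nsmul_eq_mul]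
  have hP : 0 ≤ ∏ u ∈ R, w u := Finset.prod_nonneg fun u _ => hw u
  by_cases hR : R.Nonempty
  · rw [if_pos hR]
    have hc : (B.filter (fun x => x ∈ R ∧ ∀ u ∈ R, u ≠ x → adj x u)).card ≤ 1 := by
      rw [Finset.card_le_one]
      intro a ha b hb
      rw [Finset.mem_filter] at ha hb
      by_contra hab
      exact has a b (ha.2.2 b hb.2.1 (Ne.symm hab)) (hb.2.2 a ha.2.1 hab)
    have hc' : ((B.filter (fun x => x ∈ R ∧ ∀ u ∈ R, u ≠ x → adj x u)).card : ℝ) ≤ 1 := by
      exact_mod_cast hc
    nlinarith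
  · rw [if_neg hR]
    have hc : (B.filter (fun x => x ∈ R ∧ ∀ u ∈ R, u ≠ x → adj x u)).card = 0 := by
      rw [Finset.card_eq_zero, Finset.filter_eq_empty_iff]
      intro x _ hx
      exact hR ⟨x, hx.1⟩
    rw [hc]
    simp

open Classical in
/-- The two-weight inequality: for all nonnegative vertex weights `w, h` on a finite oriented graph,
`h` not identically zero, some vertex `v` satisfies
`w(v) * ∑_{u → v} h(u) < h(v) * ∏_{u ∈ N2+(v)} (1 + w(u))`. -/
theorem result (n : ℕ) (adj : Fin n → Fin n → Prop) (has : ∀ x y, adj x y → ¬ adj y x)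
    (w h : Fin n → ℝ) (hw : ∀ v, 0 ≤ w v) (hh : ∀ v, 0 ≤ h v) (hne : ∃ v, h v ≠ 0) :
    ∃ v, w v * (∑ u with adj u v, h u) <
      h v * ∏ u with (u ≠ v ∧ ¬ adj v u ∧ ∃ x, adj v x ∧ adj x u), (1 + w u) := by
  by_contra hcon
  push Not at hcon
  have hloop : ∀ x, ¬ adj x x := fun x hx => has x x hx hx
  have h1w : ∀ u, (1 : ℝ) ≤ 1 + w u := fun u => by linarith [hw u]
  obtain ⟨ψ, hψ⟩ : ∃ ψ : Fin n → ℝ, ψ = fun x => ∏ u with adj x u, (1 + w u) := ⟨_, rfl⟩
  obtain ⟨P, hP⟩ : ∃ P : Fin n → ℝ, P = fun v =>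
    ∏ u with (u ≠ v ∧ ¬ adj v u ∧ ∃ x, adj v x ∧ adj x u), (1 + w u) := ⟨_, rfl⟩
  have hψ1 : ∀ x, 1 ≤ ψ x := by
    intro x
    rw [hψ]
    exact Finset.one_le_prod fun u _ => h1w u
  have hP1 : ∀ x, 1 ≤ P x := by
    intro x
    rw [hP]
    exact Finset.one_le_prod fun u _ => h1w u
  -- the value at an out-neighbour
  have hstep : ∀ y x, adj y x →
      ψ x ≤ P y * ∏ u ∈ (Finset.univ.filter (fun z => adj y z)) with adj x u, (1 + w u) := by
    intro y x hyx
    have hsub : (Finset.univ.filter (fun u => adj x u)) ⊆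
        (Finset.univ.filter (fun u => u ≠ y ∧ ¬ adj y u ∧ ∃ x, adj y x ∧ adj x u)) ∪
          ((Finset.univ.filter (fun z => adj y z)).filter (fun u => adj x u)) := by
      intro u hu
      rw [Finset.mem_filter] at hu
      rw [Finset.mem_union, Finset.mem_filter, Finset.mem_filter, Finset.mem_filter]
      by_cases hyu : adj y u
      · exact Or.inr ⟨⟨Finset.mem_univ _, hyu⟩, hu.2⟩
      · refine Or.inl ⟨Finset.mem_univ _, ?_, hyu, x, hyx, hu.2⟩
        rintro rfl
        exact has _ _ hyx hu.2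
    have hdis : Disjoint
        (Finset.univ.filter (fun u => u ≠ y ∧ ¬ adj y u ∧ ∃ x, adj y x ∧ adj x u))
          ((Finset.univ.filter (fun z => adj y z)).filter (fun u => adj x u)) := by
      rw [Finset.disjoint_left]
      intro u hu hu'
      rw [Finset.mem_filter] at hu
      rw [Finset.mem_filter, Finset.mem_filter] at hu'
      exact hu.2.2.1 hu'.1.2
    calc ψ x = ∏ u with adj x u, (1 + w u) := by rw [hψ]
      _ ≤ ∏ u ∈ (Finset.univ.filter (fun u => u ≠ y ∧ ¬ adj y u ∧ ∃ x, adj y x ∧ adj x u)) ∪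
          ((Finset.univ.filter (fun z => adj y z)).filter (fun u => adj x u)), (1 + w u) :=
        Finset.prod_le_prod_of_subset_of_one_le hsub
          (fun u _ => by linarith [h1w u]) (fun u _ _ => h1w u)
      _ = _ := by
        rw [Finset.prod_union hdis, hP]
  -- the sum over the out-neighbours
  have hsum : ∀ y, ∑ x with adj y x, w x * ψ x ≤ P y * (ψ y - 1) := by
    intro y
    have hk := king_sum adj has w hw (Finset.univ.filter (fun z => adj y z))
    calc ∑ x with adj y x, w x * ψ x
        ≤ ∑ x with adj y x, P y * (w x *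
            ∏ u ∈ (Finset.univ.filter (fun z => adj y z)) with adj x u, (1 + w u)) := by
          refine Finset.sum_le_sum fun x hx => ?_
          rw [Finset.mem_filter] at hx
          have := mul_le_mul_of_nonneg_left (hstep y x hx.2) (hw x)
          linarith
      _ = P y * ∑ x with adj y x, (w x *
            ∏ u ∈ (Finset.univ.filter (fun z => adj y z)) with adj x u, (1 + w u)) := by
          rw [Finset.mul_sum]
      _ ≤ P y * ((∏ x with adj y x, (1 + w x)) - 1) :=
          mul_le_mul_of_nonneg_left hk (by linarith [hP1 y])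
      _ = P y * (ψ y - 1) := by rw [hψ]
  -- double counting
  have hdc : ∑ x, (w x * ∑ u with adj u x, h u) * ψ x = ∑ y, h y * ∑ x with adj y x, w x * ψ x := by
    simp only [Finset.sum_filter, Finset.mul_sum, Finset.sum_mul]
    rw [Finset.sum_comm]
    refine Finset.sum_congr rfl fun y _ => Finset.sum_congr rfl fun x _ => ?_
    split_ifs
    · ring
    · ring
  have hlow : ∑ x, (h x * P x) * ψ x ≤ ∑ x, (w x * ∑ u with adj u x, h u) * ψ x := by
    refine Finset.sum_le_sum fun x _ => ?_
    refine mul_le_mul_of_nonneg_right ?_ (by linarith [hψ1 x])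
    rw [hP]
    exact hcon x
  have hup : ∑ y, h y * ∑ x with adj y x, w x * ψ x ≤ ∑ y, h y * (P y * (ψ y - 1)) :=
    Finset.sum_le_sum fun y _ => mul_le_mul_of_nonneg_left (hsum y) (hh y)
  have hfin : ∑ y, h y * P y ≤ 0 := by
    have h1 : ∑ y, h y * (P y * (ψ y - 1)) = ∑ x, (h x * P x) * ψ x - ∑ y, h y * P y := by
      rw [← Finset.sum_sub_distrib]
      exact Finset.sum_congr rfl fun y _ => by ring
    linarith
  obtain ⟨v, hv⟩ := hne
  have hvpos : 0 < h v := lt_of_le_of_ne (hh v) (Ne.symm hv)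
  have h2 : h v * P v ≤ ∑ y, h y * P y :=
    Finset.single_le_sum (f := fun y => h y * P y)
      (fun y _ => mul_nonneg (hh y) (by linarith [hP1 y])) (Finset.mem_univ v)
  have h3 : 0 < h v * P v := mul_pos hvpos (by linarith [hP1 v])
  linarith

end Pool.Agent.Results.MP_109285_co.ExpInequality
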