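import Pool.Agent.SulTree.Main

/-!
# MP_109285_co: tree components and few edges in the graph of the non-adjacent pairs

`D` is an oriented graph on `Fin n` with arc relation `adj`, `d` a natural number, `F` a family of
vertex sets containing the set of all vertices, such that every nonempty `U` in `F` satisfies one of

* `U` is not the set of all vertices and `D[U]` has a vertex `v` with `|N-(v)| ≤ |N2+(v)| + d`;
* every vertex of minimum in-degree of `D[U]` has at most `d + 3` non-neighbours in `U`;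
* `D[U]` has fewer than `(d + 1)` times as many transitive triangles as arcs;
* the graph of the non-adjacent pairs of `D[U]` has a component that is a tree or has at most `|U|`
  edges (`2 |U|` ordered pairs), and the in-neighbourhoods of all vertices in `D[U]` are in `F`;
* some nonempty proper subset `C` of `U` in `F` has no arc into it from the rest of `U`.

Then some vertex `v` satisfies `|N-(v)| ≤ |N2+(v)| + d`.  For `d = 0` this is a Sullivan vertex.
-/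

set_option autoImplicit false

namespace Pool.Agent.Results.MP_109285_co.TreeComponent

theorem result (n : ℕ) (adj : Fin n → Fin n → Prop) (hn : 0 < n)
    (has : ∀ x y, adj x y → ¬ adj y x) (d : ℕ) (F : Set (Fin n) → Prop) (hF : F Set.univ)
    (h : ∀ U : Set (Fin n), F U → U.Nonempty →
      (U ≠ Set.univ ∧ ∃ v ∈ U, {w | w ∈ U ∧ adj w v}.ncard ≤
        {w | w ∈ U ∧ w ≠ v ∧ ¬ adj v w ∧ ∃ u ∈ U, adj v u ∧ adj u w}.ncard + d) ∨
      (∀ x ∈ U, (∀ y ∈ U, {w | w ∈ U ∧ adj w x}.ncard ≤ {w | w ∈ U ∧ adj w y}.ncard) →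
        {w | w ∈ U ∧ w ≠ x ∧ ¬ adj x w ∧ ¬ adj w x}.ncard ≤ d + 3) ∨
      {p : Fin n × Fin n × Fin n | p.1 ∈ U ∧ p.2.1 ∈ U ∧ p.2.2 ∈ U ∧
        adj p.1 p.2.1 ∧ adj p.2.1 p.2.2 ∧ adj p.1 p.2.2}.ncard <
        (d + 1) * {p : Fin n × Fin n | p.1 ∈ U ∧ p.2 ∈ U ∧ adj p.1 p.2}.ncard ∨
      (((∃ K ⊆ U, K.Nonempty ∧ (∀ x ∈ K, ∀ y ∈ U, x ≠ y → ¬ adj x y → ¬ adj y x → y ∈ K) ∧
        ((SimpleGraph.fromRel fun x y => ¬ adj x y ∧ ¬ adj y x).induce K).IsAcyclic) ∨
        {p : Fin n × Fin n | p.1 ∈ U ∧ p.2 ∈ U ∧ p.1 ≠ p.2 ∧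
          ¬ adj p.1 p.2 ∧ ¬ adj p.2 p.1}.ncard ≤ 2 * U.ncard) ∧
        ∀ z ∈ U, F {w | w ∈ U ∧ adj w z}) ∨
      ∃ C ⊆ U, C ≠ U ∧ C.Nonempty ∧ F C ∧ ∀ x ∈ U, x ∉ C → ∀ y ∈ C, ¬ adj x y) :
    ∃ v : Fin n, {u : Fin n | adj u v}.ncard ≤
      {w : Fin n | w ≠ v ∧ ¬ adj v w ∧ ∃ u : Fin n, adj v u ∧ adj u w}.ncard + d :=
  Pool.Agent.SulTree.main n adj hn has d F hF h

end Pool.Agent.Results.MP_109285_co.TreeComponent
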